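import Pool.Agent.E8helper30.RG.Stm4

/-!
The upper bound of the girth of sparse graphs, from its pieces.
-/

set_option autoImplicit false

namespace Pool.Agent.E8helper51.RG

open Pool.Agent.E8helper30.RG

open scoped Classical

theorem t_UGIRTH (hC : S_UCORE) (hP : S_UPATH) (hG : S_UGROW) : S_UGIRTH := by
  intro n k G hk hkn hE
  by_contra hcon
  push Not at hcon
  obtain ⟨S, hne, hdeg, hd, hden, hmin⟩ := hC n k G hk hkn hE
  have hpath := hP n k G S hden hmin
  have h := hG n (n / k + 1) (k + 1) (Nat.log 2 (2 * k + 4) + 1) G S hne (Nat.le_add_left 1 _) hdeg hd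
    (by
      intro u v p hp h1 h2 h3
      have h4 := hpath u v p hp h1 h2 h3
      have h5 : p.length ≤ n / k := (Nat.le_div_iff_mul_le (by omega)).2 (by
        rw [mul_comm]
        omega)
      omega)
    (by
      intro v w hw
      exact hcon v w hw)
  have h1 := Nat.lt_pow_succ_log_self (b := 2) (by norm_num) (2 * k + 4)
  rw [Nat.succ_eq_add_one] at h1
  omega

end Pool.Agent.E8helper51.RG
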